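import Pool.Agent.H39.IX.Targets2
import Pool.Agent.H72.G2.CFC

/-!
# Row POL of the board ixm_modules: polar parts
-/

set_option autoImplicit false

open scoped InnerProductSpace Topology
open Filter Finset Pool.Agent.H80.G2 Pool.Agent.H39.IX

namespace Pool.Agent.H74.IX

lemma POL.real (x t : ℝ) (ht : t ≤ 21 / 100) (hx : |x - 1| ≤ t) :
    (1 / √(max x (1 / 2))) * x * (1 / √(max x (1 / 2))) = 1 ∧
      |1 / √(max x (1 / 2)) - 1| ≤ 7 / 10 * t := by
  obtain ⟨h1, h2⟩ := abs_le.1 hx
  have hx0 : 79 / 100 ≤ x := by linarith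
  rw [max_eq_left (by linarith)]
  set y := √x with hy
  have hyy : y * y = x := Real.mul_self_sqrt (by linarith)
  have hy0 : 0 ≤ y := Real.sqrt_nonneg x
  have hy1 : 88 / 100 ≤ y := by
    by_contra hlt
    push Not at hlt
    nlinarith
  have hypos : 0 < y := by linarith
  constructor
  · rw [← hyy]
    field_simp
  · have h3 : 1 / y - 1 = (1 - x) / (y * (1 + y)) := by
      rw [← hyy]
      field_simp
      ring
    rw [h3, abs_div, abs_of_pos (show 0 < y * (1 + y) by positivity), div_le_iff₀ (by positivity)]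
    have h4 : |1 - x| ≤ t := by rwa [abs_sub_comm]
    have h5 : 0 ≤ t := (abs_nonneg _).trans hx
    have h6 : (16 : ℝ) / 10 ≤ y * (1 + y) := by nlinarith
    nlinarith

theorem pf_POL : T_POL := by
  intro H _ _ _ T u d hu hTu hd
  obtain ⟨hu1, hu2⟩ := hu
  have hd0 : 0 ≤ d := (norm_nonneg _).trans hTu
  have h1n : ‖(1 : H →L[ℂ] H)‖ ≤ 1 := ContinuousLinearMap.norm_id_le
  have hun : ‖u‖ ≤ 1 := by
    have e1 : ‖star u * u‖ = ‖u‖ * ‖u‖ := CStarRing.norm_star_mul_self
    rw [hu1] at e1
    nlinarith [norm_nonneg u]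
  have hTn : ‖T‖ ≤ 1 + d := by
    have e1 : ‖T‖ ≤ ‖T - u‖ + ‖u‖ := by
      have := norm_add_le (T - u) u
      rwa [sub_add_cancel] at this
    linarith
  set h := star T * T with hh
  have hsa : IsSelfAdjoint h := IsSelfAdjoint.star_mul_self T
  set t := ‖h - 1‖ with ht
  have ht0 : 0 ≤ t := norm_nonneg _
  have htd : t ≤ d * (2 + d) := by
    have e1 : h - 1 = star T * (T - u) + (star T - star u) * u := by
      rw [hh, mul_sub, sub_mul, hu1]
      abel
    have e2 : ‖star T * (T - u)‖ ≤ (1 + d) * d := by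
      refine (norm_mul_le _ _).trans ?_
      rw [norm_star]
      exact mul_le_mul hTn hTu (norm_nonneg _) (by linarith)
    have e3 : ‖(star T - star u) * u‖ ≤ d * 1 := by
      refine (norm_mul_le _ _).trans ?_
      rw [← star_sub, norm_star]
      exact mul_le_mul hTu hun (norm_nonneg _) hd0
    rw [ht, e1]
    refine (norm_add_le _ _).trans ?_
    linarith
  have ht1 : t ≤ 21 / 100 := by nlinarith
  have hspec : ∀ x ∈ spectrum ℝ h, |x - 1| ≤ t := by
    intro x hx
    have e1 : x - 1 ∈ spectrum ℝ (h - 1) := by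
      have e2 := (spectrum.add_mem_add_iff (R := ℝ) (a := h) (r := x) (s := -1)).2 hx
      have e3 : algebraMap ℝ (H →L[ℂ] H) (-1) + h = h - 1 := by
        rw [map_neg, map_one]
        abel
      rw [e3] at e2
      rwa [show x - 1 = x + -1 by ring]
    have e4 := spectrum.norm_le_norm_mul_of_mem e1
    rw [Real.norm_eq_abs] at e4
    refine e4.trans ?_
    rw [← ht]
    nlinarith
  let f : ℝ → ℝ := fun x => 1 / √(max x (1 / 2))
  have hf : Continuous f := by
    refine continuous_const.div (Real.continuous_sqrt.comp (continuous_id.max continuous_const))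
      fun x => ?_
    have : (0 : ℝ) < max x (1 / 2) := lt_of_lt_of_le (by norm_num) (le_max_right _ _)
    exact (Real.sqrt_pos.2 this).ne'
  set k := cfc f h with hk
  have hksa : star k = k := (cfc_predicate f h : IsSelfAdjoint (cfc f h))
  have hkhk : k * h * k = 1 := by
    have e1 : k * h * k = cfc (fun x => f x * x * f x) h := by
      rw [cfc_mul (fun x => f x * x) f h (by fun_prop) (by fun_prop),
        cfc_mul f (fun x => x) h (by fun_prop) (by fun_prop), cfc_id' ℝ h]
    rw [e1, ← cfc_one ℝ h]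
    exact cfc_congr fun x hx => (POL.real x t ht1 (hspec x hx)).1
  have hk1 : ‖k - 1‖ ≤ 7 / 10 * t := by
    have e1 : k - 1 = cfc (fun x => f x - 1) h := by
      rw [cfc_sub f (fun _ => 1) h (by fun_prop) (by fun_prop), cfc_const_one ℝ h]
    rw [e1]
    refine norm_cfc_le (by positivity) fun x hx => ?_
    exact (POL.real x t ht1 (hspec x hx)).2
  have hvv : star (T * k) * (T * k) = 1 := by
    rw [star_mul, hksa]
    have e1 : k * star T * (T * k) = k * (star T * T) * k := by simp only [mul_assoc]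
    rw [e1, ← hh, hkhk]
  have hUu : IsUnit u := ⟨⟨u, star u, hu2, hu1⟩, rfl⟩
  have hUT : IsUnit T := by
    have e1 : IsUnit (T * star u) := by
      have e2 : ‖1 - T * star u‖ < 1 := by
        have e3 : 1 - T * star u = (u - T) * star u := by rw [sub_mul, hu2]
        rw [e3]
        refine (norm_mul_le _ _).trans_lt ?_
        rw [norm_star, norm_sub_rev]
        nlinarith [norm_nonneg u, norm_nonneg (T - u)]
      have e4 := isUnit_one_sub_of_norm_lt_one e2
      rwa [sub_sub_cancel] at e4
    have e5 : T = T * star u * u := by rw [mul_assoc, hu1, mul_one]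
    rw [e5]
    exact e1.mul hUu
  have hUk : IsUnit k := ⟨⟨k, h * k, by rw [← mul_assoc, hkhk], by
    have e1 : k * h = h * k := by
      have e2 : Commute (cfc f h) h := (Commute.cfc_real (Commute.refl h) f)
      exact e2
    rw [← e1, hkhk]⟩, rfl⟩
  have hUv : IsUnit (T * k) := hUT.mul hUk
  have hvv2 : T * k * star (T * k) = 1 := by
    obtain ⟨w, hw⟩ := hUv
    rw [← hw] at hvv ⊢
    have e1 : star (w : H →L[ℂ] H) = ↑w⁻¹ := by
      calc star (w : H →L[ℂ] H) = star (w : H →L[ℂ] H) * (w * ↑w⁻¹) := by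
            rw [Units.mul_inv, mul_one]
        _ = ↑w⁻¹ := by rw [← mul_assoc, hvv, one_mul]
    rw [e1, Units.mul_inv]
  have hvT : ‖T * k - T‖ ≤ 77 / 100 * t := by
    have e1 : T * k - T = T * (k - 1) := by rw [mul_sub, mul_one]
    rw [e1]
    refine (norm_mul_le _ _).trans ?_
    have e2 : ‖T‖ ≤ 11 / 10 := by linarith
    calc ‖T‖ * ‖k - 1‖ ≤ 11 / 10 * (7 / 10 * t) :=
          mul_le_mul e2 hk1 (norm_nonneg _) (by norm_num)
      _ = 77 / 100 * t := by ring
  refine ⟨T * k, ⟨hvv, hvv2⟩, ?_, ?_, ?_, ?_⟩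
  · have e1 : T * k - u = (T * k - T) + (T - u) := by abel
    rw [e1]
    refine (norm_add_le _ _).trans ?_
    nlinarith
  · refine hvT.trans ?_
    linarith
  · intro N hTN
    have e1 : h ∈ N := mul_mem (star_mem hTN) hTN
    exact mul_mem hTN (Pool.Agent.H72.G2.pf_CFC H N h e1 hsa f)
  · intro a b hab hab'
    have e1 : Commute h a := by
      change h * a = a * h
      calc star T * T * a = star T * (T * a) := mul_assoc _ _ _
        _ = star T * b * T := by rw [hab, mul_assoc]
        _ = a * (star T * T) := by rw [← hab', mul_assoc]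
    have e2 : Commute k a := Commute.cfc_real e1 f
    calc T * k * a = T * (k * a) := mul_assoc _ _ _
      _ = T * a * k := by rw [e2.eq, mul_assoc]
      _ = b * (T * k) := by rw [hab, mul_assoc]

end Pool.Agent.H74.IX
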